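import Pool.Agent.Helper23_TS.Stmts

open Polynomial

namespace Pool.Agent.TS.H25

open H12UBI H58UB Pool.Agent.TS

theorem rg : RgStmt := by
  intro A _ g h r S a z h0 h1
  by_cases hu : IsUnit a
  · obtain ⟨b, hb⟩ := hu.exists_right_inv
    refine ⟨0, cst h r b * z, ?_⟩
    rw [map_zero, zero_add, ← mul_assoc, ← map_mul, hb, map_one, one_mul]
  · have hne : Ideal.span {a} ≠ (⊤ : Ideal A) := by
      rw [Ne, Ideal.span_singleton_eq_top]
      exact hu
    have : Nontrivial (A ⧸ Ideal.span {a}) := Ideal.Quotient.nontrivial_iff.2 hne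
    let φ : A →+* A ⧸ Ideal.span {a} := Ideal.Quotient.mk (Ideal.span {a})
    have hφ : ∀ x : A, φ x = 0 ↔ a ∣ x := fun x => by
      rw [Ideal.Quotient.eq_zero_iff_mem, Ideal.mem_span_singleton]
    have hF : Fn (smap S φ) 0 (cmap φ h r z) := by
      constructor
      · rw [← lmap_e0]
        intro j hj
        rw [coeff_lmap, hφ]
        exact h0 j (by simpa using hj)
      · rw [← lmap_e1]
        intro j hj
        rw [coeff_lmap, hφ]
        exact h1 j (by simpa using hj)
    have him : C a ∣ z.im := by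
      rw [C_dvd_iff_dvd_coeff]
      intro j
      have := fn_im hF j (by omega)
      rw [cmap_im, coeff_map] at this
      exact (hφ _).1 this
    have hre : C a ∣ z.re - C (z.re.coeff 0) := by
      rw [C_dvd_iff_dvd_coeff]
      intro j
      rcases Nat.eq_zero_or_pos j with rfl | hj
      · simp
      · rw [coeff_sub, coeff_C_of_ne_zero (by omega), sub_zero]
        have h2 := fn_re hF
        have h3 : ((cmap φ h r z).re).coeff j = 0 :=
          coeff_eq_zero_of_natDegree_lt (lt_of_le_of_lt h2 hj)
        rw [cmap_re, coeff_map] at h3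
        exact (hφ _).1 h3
    obtain ⟨p, hp⟩ := hre
    obtain ⟨q, hq⟩ := him
    refine ⟨z.re.coeff 0, ⟨p, q⟩, ?_⟩
    refine QuadraticAlgebra.ext ?_ ?_
    · rw [QuadraticAlgebra.re_add, QuadraticAlgebra.re_mul, cst_re, cst_re, cst_im, ← hp]
      simp
    · rw [QuadraticAlgebra.im_add, QuadraticAlgebra.im_mul, cst_im, cst_re, cst_im, ← hq]
      simp
      try exact hq

end Pool.Agent.TS.H25
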